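import Pool.Agent.H34.TAM.Stmts2

set_option autoImplicit false

noncomputable section

namespace Pool.AUT

open Pool.CGR Pool.CGS Pool.TAM MulOpposite
open scoped TensorProduct

namespace H26DRX

/-- The algebra map to the square zero extension. -/
def L {m : ℕ} (q : Fin m → Fr m) : Fr m →ₐ[ℂ] TrivSqZeroExt (Fr m) (Fr m) :=
  FreeAlgebra.lift ℂ fun k => TrivSqZeroExt.inl (io k) + TrivSqZeroExt.inr (q k)

theorem fst_L {m : ℕ} (q : Fin m → Fr m) (a : Fr m) : (L q a).fst = a := by
  have h : (TrivSqZeroExt.fstHom ℂ (Fr m) (Fr m)).comp (L q) = AlgHom.id ℂ (Fr m) := by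
    apply FreeAlgebra.hom_ext
    funext k
    simp [L]
  have h2 := congrArg (fun f : Fr m →ₐ[ℂ] Fr m => f a) h
  simpa using h2

end H26DRX

open H26DRX in
theorem drx_thm : DRXStmt := by
  intro m q
  refine ⟨{ toFun := fun a => (L q a).snd, map_add' := ?_, map_smul' := ?_ }, ?_, ?_⟩
  · intro a b
    rw [map_add, TrivSqZeroExt.snd_add]
  · intro r a
    rw [map_smul, TrivSqZeroExt.snd_smul]
    rfl
  · intro a b
    show (L q (a * b)).snd = (L q a).snd * b + a * (L q b).snd
    rw [map_mul, TrivSqZeroExt.snd_mul, fst_L, fst_L]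
    rw [op_smul_eq_mul, smul_eq_mul, add_comm]
  · intro k
    show (L q (io k)).snd = q k
    simp [L]

end Pool.AUT
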